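import Pool.Agent.helper76.UFG.Spec
import Pool.Agent.helper76.UF.RE2

set_option autoImplicit false

/-!
# Row ufg:RE3 (MP_37e5fa_nt): no short relations between the classes in any cyclotomic field
-/

namespace Pool.Agent.UFG

open Finset NumberField nonZeroDivisors Pool.Agent.UF

private lemma RE3_sep {R : Type} [CommRing R] [IsDedekindDomain R] (s : Finset ℕ)
    (A B J : ℕ → Ideal R) (n k : ℕ → ℕ) (hA : ∀ t ∈ s, A t ∣ (J t) ^ (n t))
    (hB : ∀ t ∈ s, B t ∣ (J t) ^ (k t)) (hcop : ∀ t ∈ s, ∀ u ∈ s, t ≠ u → IsCoprime (J t) (J u))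
    (h : (∏ t ∈ s, A t) = ∏ t ∈ s, B t) : ∀ t ∈ s, A t ∣ B t := by
  intro t ht
  have h1 : A t ∣ B t * ∏ v ∈ s.erase t, B v := by
    rw [Finset.mul_prod_erase s B ht, ← h]
    exact Finset.dvd_prod_of_mem A ht
  have h2 : IsCoprime (A t) (∏ v ∈ s.erase t, B v) := by
    apply IsCoprime.prod_right
    intro v hv
    rw [Finset.mem_erase] at hv
    have h3 : IsCoprime (J t ^ n t) (J v ^ k v) := (hcop t ht v hv.2 (Ne.symm hv.1)).pow
    exact IsCoprime.of_isCoprime_of_dvd_left (IsCoprime.of_isCoprime_of_dvd_right h3 (hB v hv.2)) (hA t ht)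
  exact h2.dvd_of_dvd_mul_right h1

private lemma RE3_ar1 (X F p q c c' : ℕ) (hX : 0 < X) (hF : 0 < F)
    (hr : ∀ w k : ℕ, X ^ w = F ^ k → w = 0) (h : X ^ p * F ^ c = X ^ q * F ^ c') : p = q := by
  have key : ∀ p q c c' : ℕ, p ≤ q → X ^ p * F ^ c = X ^ q * F ^ c' → p = q := by
    intro p q c c' hpq h
    obtain ⟨w, rfl⟩ := Nat.exists_eq_add_of_le hpq
    have h1 : F ^ c = X ^ w * F ^ c' := by
      rw [pow_add, mul_assoc] at h
      exact Nat.eq_of_mul_eq_mul_left (by positivity) h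
    have h2 : w = 0 := by
      rcases le_total c' c with hc | hc
      · obtain ⟨j, rfl⟩ := Nat.exists_eq_add_of_le hc
        apply hr w j
        rw [pow_add, mul_comm] at h1
        exact (Nat.eq_of_mul_eq_mul_right (by positivity) h1).symm
      · obtain ⟨j, rfl⟩ := Nat.exists_eq_add_of_le hc
        have h3 : X ^ w * F ^ j = 1 := by
          have h4 : F ^ c * (X ^ w * F ^ j) = F ^ c * 1 := by
            rw [mul_one]
            conv_rhs => rw [h1]
            rw [pow_add]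
            ring
          exact Nat.eq_of_mul_eq_mul_left (by positivity) h4
        have h5 : X ^ w = 1 := Nat.eq_one_of_mul_eq_one_right h3
        apply hr w 0
        rw [h5, pow_zero]
    rw [h2, add_zero]
  rcases le_total p q with hpq | hpq
  · exact key p q c c' hpq h
  · exact (key q p c' c hpq h.symm).symm

private lemma RE3_ar2 (D D' F p q c c' : ℕ) (hD : D * D' = F)
    (hr : ∀ w k : ℕ, D ^ w = F ^ k → w = 0) (hD0 : 0 < D) (hF : 0 < F)
    (h : D' ^ p * F ^ c = D ^ q * F ^ c') : p = 0 := by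
  have h1 : D ^ 0 * F ^ (p + c) = D ^ (p + q) * F ^ c' := by
    rw [pow_zero, one_mul, pow_add, pow_add D, mul_assoc, ← h]
    conv_lhs => rw [← hD, mul_pow]
    rw [hD]
    ring
  have h2 := RE3_ar1 D F 0 (p + q) (p + c) c' hD0 hF hr h1
  omega

private theorem RE3_core (hBAS : BAS_stmt) (hBIN : BIN_stmt) (hCPR : CPR_stmt) (hCMP : CMP_stmt)
    (hANI : ANI_stmt) (hRAR : RAR_stmt) (hCP2 : CP2_stmt)
    (m c r n : ℕ) (K L : Type) [Field K] [NumberField K] [IsCyclotomicExtension {2 ^ (m + 1)} ℚ K]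
    [Field L] [NumberField L] [IsCyclotomicExtension {n} ℚ L] [Algebra K L] (z : 𝓞 K)
    (hz : IsPrimitiveRoot z (2 ^ (m + 1))) (hn : n ≠ 0) (hmn : 2 ^ (m + 1) ∣ n) (hr : 1 ≤ r)
    (hbd : (32 * r) ^ ((2 ^ (2 ^ c) + 1) ^ (2 * r) + r) < 2 ^ m)
    (D : ℕ) (hDF : D ∣ fer (m + c)) (hD1 : 1 < D) (hDlt : D < fer (m + c))
    (P : ℕ → (Ideal (𝓞 L))⁰)
    (hP : ∀ t, (P t : Ideal (𝓞 L)) =
      Ideal.span {(D : 𝓞 L), ff (2 ^ (2 ^ c)) (algebraMap (𝓞 K) (𝓞 L) z) t})
    (e : ℕ → ℤ) (hsum : ∑ t ∈ (range (2 ^ (m + 1))).filter (fun t => Odd t), |e t| ≤ r)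
    (hprod : ∏ t ∈ (range (2 ^ (m + 1))).filter (fun t => Odd t), (ClassGroup.mk0 (P t)) ^ (e t) = 1)
    (t₀ : ℕ) (ht₀ : Odd t₀) (ht₀lt : t₀ < 2 ^ (m + 1)) : e t₀ = e (2 ^ (m + 1) - t₀) := by
  classical
  have hC : Cyc (2 ^ m) z := hBAS m K z hz
  obtain ⟨b, hb, _⟩ := hBIN (2 ^ m) (𝓞 K) z Nat.one_le_two_pow hC
  have hzN : z ^ (2 ^ m) = -1 := hC.1.1
  set φ : 𝓞 K →+* 𝓞 L := algebraMap (𝓞 K) (𝓞 L) with hφ
  have hφinj : Function.Injective φ := FaithfulSMul.algebraMap_injective (𝓞 K) (𝓞 L)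
  have hzLN : (φ z) ^ (2 ^ m) = -1 := by
    rw [← map_pow, hzN, map_neg, map_one]
  obtain ⟨D', hDD'⟩ := hDF
  have hFer : (2 ^ (2 ^ c)) ^ (2 ^ m) + 1 = fer (m + c) := REL_fer m c
  have hFpos : 0 < fer (m + c) := by unfold fer; positivity
  have hD'pos : 0 < D' := by
    rcases Nat.eq_zero_or_pos D' with h | h
    · rw [h, mul_zero] at hDD'
      omega
    · exact h
  have hE : Even (2 ^ (m + 1)) := ⟨2 ^ m, by ring⟩
  -- notation
  set M : ℕ := 2 ^ (m + 1) with hM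
  set T : Finset ℕ := (range M).filter (fun t => Odd t) with hT
  set f : ℕ → 𝓞 K := ff (2 ^ (2 ^ c)) z with hf
  set g : ℕ → 𝓞 L := ff (2 ^ (2 ^ c)) (φ z) with hg
  have hfg : ∀ t, φ (f t) = g t := by
    intro t
    simp only [hf, hg, ff, map_sub, map_natCast, map_pow]
  have hTodd : ∀ t ∈ T, Odd t := fun t ht => (Finset.mem_filter.1 ht).2
  have hTlt : ∀ t ∈ T, t < M := fun t ht => Finset.mem_range.1 (Finset.mem_filter.1 ht).1
  have hTsub : ∀ t ∈ T, M - t ∈ T := by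
    intro t ht
    have h1 := hTodd t ht
    have h2 := hTlt t ht
    rw [hT, Finset.mem_filter, Finset.mem_range]
    have := h1.pos
    exact ⟨by omega, Nat.Even.sub_odd (le_of_lt h2) hE h1⟩
  have ht₀T : t₀ ∈ T := by
    rw [hT, Finset.mem_filter, Finset.mem_range]
    exact ⟨ht₀lt, ht₀⟩
  set I : ℕ → ℕ → Ideal (𝓞 K) := fun E t => Ideal.span {(E : 𝓞 K), f t} with hI
  set J : ℕ → Ideal (𝓞 K) := fun t => Ideal.span {f t} with hJ
  set IL : ℕ → ℕ → Ideal (𝓞 L) := fun E t => Ideal.span {(E : 𝓞 L), g t} with hIL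
  set JL : ℕ → Ideal (𝓞 L) := fun t => Ideal.span {g t} with hJL
  set u : ℕ → ℕ := fun t => (e t).natAbs with hu
  set Dt : ℕ → ℕ := fun t => if 0 ≤ e t then D else D' with hDt
  have hmulD : ∀ t, Odd t → I D t * I D' t = J t := fun t ht =>
    hCMP m c (𝓞 K) z hzN t ht D D' (by rw [hFer]; exact hDD'.symm)
  have hmulDL : ∀ t, Odd t → IL D t * IL D' t = JL t := fun t ht =>
    hCMP m c (𝓞 L) (φ z) hzLN t ht D D' (by rw [hFer]; exact hDD'.symm)
  have hf0 : ∀ t, Odd t → f t ≠ 0 := by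
    intro t ht h0
    have h10 : (((2 ^ (2 ^ c) : ℕ)) : 𝓞 K) = z ^ t := by
      have : (((2 ^ (2 ^ c) : ℕ)) : 𝓞 K) - z ^ t = 0 := h0
      exact sub_eq_zero.1 this
    have h11 : (((2 ^ (2 ^ c) : ℕ)) : 𝓞 K) ^ (2 ^ m) = -1 := by
      rw [h10, ← pow_mul, mul_comm t, pow_mul, hzN]
      exact ht.neg_one_pow
    have h12 : (((((2 ^ (2 ^ c)) ^ (2 ^ m) + 1 : ℕ))) : 𝓞 K) = 0 := by
      push_cast
      push_cast at h11
      rw [h11]
      ring
    have h13 := Nat.cast_eq_zero.1 h12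
    omega
  have hg0 : ∀ t, Odd t → g t ≠ 0 := by
    intro t ht h0
    apply hf0 t ht
    apply hφinj
    rw [hfg, h0, map_zero]
  have hJL0 : ∀ t, Odd t → JL t ≠ 0 := by
    intro t ht h
    have h14 : Ideal.span {g t} = ⊥ := h
    rw [Ideal.span_singleton_eq_bot] at h14
    exact hg0 t ht h14
  have hIJ : ∀ E t, I E t ∣ J t := by
    intro E t
    rw [Ideal.dvd_iff_le]
    apply Ideal.span_mono
    intro x hx
    rw [Set.mem_singleton_iff] at hx
    rw [hx]
    exact Set.mem_insert_of_mem _ rfl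
  have hIJL : ∀ E t, IL E t ∣ JL t := by
    intro E t
    rw [Ideal.dvd_iff_le]
    apply Ideal.span_mono
    intro x hx
    rw [Set.mem_singleton_iff] at hx
    rw [hx]
    exact Set.mem_insert_of_mem _ rfl
  have hIL0 : ∀ E t, Odd t → IL E t ≠ 0 := by
    intro E t ht h
    have h15 := hIJL E t
    rw [h, zero_dvd_iff] at h15
    exact hJL0 t ht h15
  -- the class group
  have hprinL : (∏ t ∈ T, (IL (Dt t) t) ^ (u t)).IsPrincipal := by
    set Q : ℕ → (Ideal (𝓞 L))⁰ := fun t =>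
      if ht : Odd t then ⟨IL (Dt t) t, mem_nonZeroDivisors_iff_ne_zero.2 (hIL0 _ t ht)⟩ else 1 with hQ
    have hQv : ∀ t, Odd t → ((Q t : (Ideal (𝓞 L))⁰) : Ideal (𝓞 L)) = IL (Dt t) t := by
      intro t ht
      simp only [hQ, ht, dif_pos]
    have hkey : ∀ t ∈ T, (ClassGroup.mk0 (Q t)) ^ (u t) = (ClassGroup.mk0 (P t)) ^ (e t) := by
      intro t ht
      have hto := hTodd t ht
      by_cases h : 0 ≤ e t
      · have hQP : Q t = P t := by
          apply Subtype.ext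
          rw [hQv t hto, hP t]
          simp only [hIL, hDt, h, if_true]
        rw [hQP]
        have h16 : e t = ((u t : ℕ) : ℤ) := by
          simp only [hu]
          omega
        rw [h16, zpow_natCast]
      · have h17 : ClassGroup.mk0 (Q t) * ClassGroup.mk0 (P t) = 1 := by
          rw [← map_mul, ClassGroup.mk0_eq_one_iff]
          have h18 : (((Q t * P t : (Ideal (𝓞 L))⁰)) : Ideal (𝓞 L)) = JL t := by
            rw [Submonoid.coe_mul, hQv t hto, hP t]
            have h19 := hmulDL t hto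
            simp only [hDt, h, if_false]
            rw [mul_comm]
            exact h19
          rw [h18]
          exact ⟨⟨g t, rfl⟩⟩
        have h20 : ClassGroup.mk0 (Q t) = (ClassGroup.mk0 (P t))⁻¹ := eq_inv_of_mul_eq_one_left h17
        have h16 : e t = -((u t : ℕ) : ℤ) := by
          simp only [hu]
          omega
        rw [h20, h16, zpow_neg, zpow_natCast, inv_pow]
    have h21 : ∏ t ∈ T, (ClassGroup.mk0 (Q t)) ^ (u t) = 1 := by
      rw [Finset.prod_congr rfl hkey]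
      exact hprod
    have h22 : ClassGroup.mk0 (∏ t ∈ T, (Q t) ^ (u t)) = 1 := by
      rw [map_prod]
      simp only [map_pow]
      exact h21
    rw [ClassGroup.mk0_eq_one_iff] at h22
    have h23 : (((∏ t ∈ T, (Q t) ^ (u t) : (Ideal (𝓞 L))⁰)) : Ideal (𝓞 L))
        = ∏ t ∈ T, (IL (Dt t) t) ^ (u t) := by
      rw [Submonoid.coe_finsetProd]
      apply Finset.prod_congr rfl
      intro t ht
      rw [SubmonoidClass.coe_pow, hQv t (hTodd t ht)]
    rw [h23] at h22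
    exact h22
  have hmapφ : ∀ E t, (I E t).map φ = IL E t := by
    intro E t
    simp only [hI, hIL]
    rw [Ideal.map_span, Set.image_pair, hfg, map_natCast]
  set II : Ideal (𝓞 K) := ∏ t ∈ T, (I (Dt t) t) ^ (u t) with hII
  have hIImap : II.map φ = ∏ t ∈ T, (IL (Dt t) t) ^ (u t) := by
    have h38 := map_prod (Ideal.mapHom φ) (fun t => (I (Dt t) t) ^ (u t)) T
    simp only [map_pow] at h38
    have h39 : II.map φ = ∏ t ∈ T, ((I (Dt t) t).map φ) ^ (u t) := h38
    rw [h39]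
    apply Finset.prod_congr rfl
    intro t _
    rw [hmapφ]
  have hIIprin : (II.map (algebraMap (𝓞 K) (𝓞 L))).IsPrincipal := by
    have h : II.map (algebraMap (𝓞 K) (𝓞 L)) = II.map φ := rfl
    rw [h, hIImap]
    exact hprinL
  set s : Multiset ℕ := ∑ t ∈ T, Multiset.replicate (u t) t with hs
  set α : 𝓞 K := ∏ t ∈ T, f t ^ u t with hα
  have hsα : (s.map f).prod = α := by rw [hs, REL_rep, hα]
  have hscard : Multiset.card s ≤ r := by
    rw [hs, REL_card]
    have h27 : ((∑ t ∈ T, u t : ℕ) : ℤ) ≤ r := by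
      push_cast
      have h28 : ∀ t ∈ T, ((u t : ℕ) : ℤ) = |e t| := by
        intro t _
        simp only [hu, Int.natCast_natAbs]
      rw [Finset.sum_congr rfl h28]
      exact hsum
    exact_mod_cast h27
  have hsmem : ∀ t ∈ s, t ∈ T := fun t ht => REL_mem T u t ht
  have hIIdvd : II ∣ Ideal.span {(s.map (ff (2 ^ (2 ^ c)) z)).prod} := by
    have h1 : Ideal.span {(s.map (ff (2 ^ (2 ^ c)) z)).prod} = ∏ t ∈ T, (J t) ^ (u t) := by
      have h2 : (s.map (ff (2 ^ (2 ^ c)) z)).prod = α := hsα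
      rw [h2, hα, ← Ideal.prod_span_singleton]
      apply Finset.prod_congr rfl
      intro t _
      rw [← Ideal.span_singleton_pow]
    rw [h1, hII]
    exact Finset.prod_dvd_prod_of_dvd _ _ fun t _ => pow_dvd_pow_of_dvd (hIJ _ t) _
  obtain ⟨s', hs's, hmain⟩ := hCP2 m c r n K L z b hz hb hr hbd hn hmn s hscard
    (fun t ht => hTodd t (hsmem t ht)) II hIIdvd hIIprin
  have hs'mem : ∀ t ∈ s', t ∈ T := fun t ht => hsmem t (Multiset.mem_of_le hs's ht)
  set k : ℕ → ℕ := fun t => Multiset.count t s' with hk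
  have hbf : ∀ t ∈ T, b (f t) = f (M - t) := fun t ht =>
    RE2_bf m (2 ^ (2 ^ c)) z b hzN hb.1 t (hTlt t ht)
  have hMM : ∀ t ∈ T, M - (M - t) = t := fun t ht => Nat.sub_sub_self (le_of_lt (hTlt t ht))
  have hsp1 : Ideal.span {(s'.map (ff (2 ^ (2 ^ c)) z)).prod} = ∏ t ∈ T, (J t) ^ (k t) := by
    have h2 : (s'.map (ff (2 ^ (2 ^ c)) z)).prod = ∏ t ∈ T, f t ^ k t := RE2_count_prod T s' f hs'mem
    rw [h2, ← Ideal.prod_span_singleton]
    apply Finset.prod_congr rfl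
    intro t _
    rw [← Ideal.span_singleton_pow]
  have hsp2 : Ideal.span {b (s'.map (ff (2 ^ (2 ^ c)) z)).prod} = ∏ t ∈ T, (J t) ^ (k (M - t)) := by
    have h2 : (s'.map (ff (2 ^ (2 ^ c)) z)).prod = ∏ t ∈ T, f t ^ k t := RE2_count_prod T s' f hs'mem
    have h3 : b (s'.map (ff (2 ^ (2 ^ c)) z)).prod = ∏ t ∈ T, f t ^ k (M - t) := by
      rw [h2, map_prod, ← RE2_reindex m (fun t => f t ^ k (2 ^ (m + 1) - t))]
      apply Finset.prod_congr rfl
      intro t ht
      rw [map_pow, hbf t ht]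
      show f (M - t) ^ k t = f (M - t) ^ k (M - (M - t))
      rw [hMM t ht]
    rw [h3, ← Ideal.prod_span_singleton]
    apply Finset.prod_congr rfl
    intro t _
    rw [← Ideal.span_singleton_pow]
  have hmapI : ∀ E : ℕ, ∀ t ∈ T, Ideal.map b (I E t) = I E (M - t) := by
    intro E t ht
    simp only [hI]
    rw [Ideal.map_span, Set.image_pair]
    have h33 : b ((E : ℕ) : 𝓞 K) = (E : 𝓞 K) := map_natCast _ E
    rw [hbf t ht, h33]
  have hIIb : II.map b = ∏ t ∈ T, (I (Dt (M - t)) t) ^ (u (M - t)) := by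
    have h37 : II.map b = ∏ t ∈ T, (Ideal.map b (I (Dt t) t)) ^ (u t) := by
      have h38 := map_prod (Ideal.mapHom (b : 𝓞 K →+* 𝓞 K)) (fun t => (I (Dt t) t) ^ (u t)) T
      simp only [map_pow] at h38
      exact h38
    rw [h37, ← RE2_reindex m (fun t => (I (Dt (2 ^ (m + 1) - t)) t) ^ (u (2 ^ (m + 1) - t)))]
    apply Finset.prod_congr rfl
    intro t ht
    rw [hmapI _ t ht]
    show I (Dt t) (M - t) ^ u t = I (Dt (M - (M - t))) (M - t) ^ u (M - (M - t))
    rw [hMM t ht]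
  set A : ℕ → Ideal (𝓞 K) := fun t => I (Dt (M - t)) t ^ u (M - t) * J t ^ k t with hA
  set B : ℕ → Ideal (𝓞 K) := fun t => I (Dt t) t ^ u t * J t ^ k (M - t) with hB
  have hAB : ∏ t ∈ T, A t = ∏ t ∈ T, B t := by
    simp only [hA, hB]
    rw [Finset.prod_mul_distrib, Finset.prod_mul_distrib, ← hIIb, ← hsp1, ← hsp2]
    exact hmain
  have hcop : ∀ t ∈ T, ∀ v ∈ T, t ≠ v → IsCoprime (J t) (J v) := by
    intro t ht v hv htv
    rw [Ideal.isCoprime_span_singleton_iff]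
    apply hCPR m c (𝓞 K) z hzN t v (hTodd t ht) (hTodd v hv)
    intro hdv
    have h39 := hTlt t ht
    have h40 := hTlt v hv
    have h41 : ((2 : ℤ) ^ (m + 1)) = ((M : ℕ) : ℤ) := by rw [hM]; push_cast; rfl
    rw [h41] at hdv
    obtain ⟨w, hw⟩ := hdv
    have h42 : (0 : ℤ) < M := by exact_mod_cast lt_of_le_of_lt (Nat.zero_le _) h39
    have h43 : w < 1 := by
      by_contra h
      push Not at h
      nlinarith
    have h44 : -1 < w := by
      by_contra h
      push Not at h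
      nlinarith
    have h45 : w = 0 := by omega
    rw [h45, mul_zero] at hw
    apply htv
    omega
  have hAd : ∀ t ∈ T, A t ∣ J t ^ (u (M - t) + k t) := by
    intro t _
    rw [pow_add]
    exact mul_dvd_mul (pow_dvd_pow_of_dvd (hIJ _ t) _) dvd_rfl
  have hBd : ∀ t ∈ T, B t ∣ J t ^ (u t + k (M - t)) := by
    intro t _
    rw [pow_add]
    exact mul_dvd_mul (pow_dvd_pow_of_dvd (hIJ _ t) _) dvd_rfl
  have hkey : A t₀ = B t₀ :=
    dvd_antisymm
      (RE3_sep T A B J (fun t => u (M - t) + k t) (fun t => u t + k (M - t)) hAd hBd hcop hAB t₀ ht₀T)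
      (RE3_sep T B A J (fun t => u t + k (M - t)) (fun t => u (M - t) + k t) hBd hAd hcop hAB.symm t₀ ht₀T)
  -- norms
  have hDdvd : D ∣ (2 ^ (2 ^ c)) ^ (2 ^ m) + 1 := by rw [hFer, hDD']; exact Dvd.intro _ rfl
  have hD'dvd : D' ∣ (2 ^ (2 ^ c)) ^ (2 ^ m) + 1 := by rw [hFer, hDD']; exact Dvd.intro_left _ rfl
  have hnD : ∀ t, Odd t → Ideal.absNorm (I D t) = D := fun t ht =>
    hANI m (2 ^ (2 ^ c)) t D K z hC ht (by omega) hDdvd
  have hnD' : ∀ t, Odd t → Ideal.absNorm (I D' t) = D' := fun t ht =>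
    hANI m (2 ^ (2 ^ c)) t D' K z hC ht hD'pos hD'dvd
  have hnJ : ∀ t, Odd t → Ideal.absNorm (J t) = fer (m + c) := by
    intro t ht
    rw [← hmulD t ht, map_mul, hnD t ht, hnD' t ht, hDD']
  have hnorm : Ideal.absNorm (I (Dt (M - t₀)) t₀) ^ u (M - t₀) * fer (m + c) ^ k t₀
      = Ideal.absNorm (I (Dt t₀) t₀) ^ u t₀ * fer (m + c) ^ k (M - t₀) := by
    have h46 := congrArg Ideal.absNorm hkey
    simp only [hA, hB] at h46
    rw [map_mul, map_mul, map_pow, map_pow, map_pow, map_pow, hnJ t₀ ht₀] at h46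
    exact h46
  obtain ⟨r1, r2, r3⟩ := hRAR (m + c) D D' hDD'.symm hD1 hDlt
  by_cases hp : 0 ≤ e t₀
  · by_cases hq : 0 ≤ e (M - t₀)
    · simp only [hDt, hp, hq, if_true] at hnorm
      rw [hnD t₀ ht₀] at hnorm
      have h47 := RE3_ar1 D (fer (m + c)) _ _ _ _ (by omega) hFpos r2 hnorm
      simp only [hu] at h47
      omega
    · simp only [hDt, hp, hq, if_true, if_false] at hnorm
      rw [hnD' t₀ ht₀, hnD t₀ ht₀] at hnorm
      have h48 := RE3_ar2 D D' (fer (m + c)) _ _ _ _ hDD'.symm r2 (by omega) hFpos hnorm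
      simp only [hu] at h48
      omega
  · by_cases hq : 0 ≤ e (M - t₀)
    · simp only [hDt, hp, hq, if_true, if_false] at hnorm
      rw [hnD' t₀ ht₀, hnD t₀ ht₀] at hnorm
      have h48 := RE3_ar2 D D' (fer (m + c)) _ _ _ _ hDD'.symm r2 (by omega) hFpos hnorm.symm
      simp only [hu] at h48
      omega
    · simp only [hDt, hp, hq, if_false] at hnorm
      rw [hnD' t₀ ht₀] at hnorm
      have h47 := RE3_ar1 D' (fer (m + c)) _ _ _ _ hD'pos hFpos r3 hnorm
      simp only [hu] at h47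
      omega

theorem RE3 (hBAS : BAS_stmt) (hBIN : BIN_stmt) (hCPR : CPR_stmt) (hCMP : CMP_stmt) (hANI : ANI_stmt)
    (hRL2 : RL2_stmt) (hRAR : RAR_stmt) (hCP2 : CP2_stmt) : RE3_stmt := by
  intro m c r n L _ _ _ z hz hn hmn hr hbd D hDF hD1 hDlt P hP e hsum hprod t₀ ht₀ ht₀lt
  have hzL : IsPrimitiveRoot (z : L) (2 ^ (m + 1)) :=
    hz.map_of_injective (f := algebraMap (𝓞 L) L) RingOfIntegers.coe_injective
  obtain ⟨K, hK⟩ : ∃ K : IntermediateField ℚ L, K = IntermediateField.adjoin ℚ {(z : L)} := ⟨_, rfl⟩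
  have hnf : NumberField K := NumberField.of_intermediateField K
  have hcyc : IsCyclotomicExtension {2 ^ (m + 1)} ℚ K := by
    rw [hK]
    exact hzL.intermediateField_adjoin_isCyclotomicExtension ℚ
  have hzK : (z : L) ∈ K := by
    rw [hK]
    exact IntermediateField.mem_adjoin_simple_self ℚ _
  have hint : IsIntegral ℤ (⟨(z : L), hzK⟩ : K) := by
    have h1 : IsIntegral ℤ (algebraMap K L ⟨(z : L), hzK⟩) := RingOfIntegers.isIntegral_coe z
    exact (isIntegral_algebraMap_iff (algebraMap K L).injective).1 h1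
  obtain ⟨zK, hzK1⟩ : ∃ zK : 𝓞 K, (zK : K) = ⟨(z : L), hzK⟩ := ⟨⟨_, hint⟩, rfl⟩
  have hzz : algebraMap (𝓞 K) (𝓞 L) zK = z := by
    apply RingOfIntegers.ext
    show algebraMap K L (zK : K) = (z : L)
    rw [hzK1]
    rfl
  have hzKp : IsPrimitiveRoot zK (2 ^ (m + 1)) := by
    have hinj : Function.Injective (algebraMap (𝓞 K) (𝓞 L)) := FaithfulSMul.algebraMap_injective _ _
    apply IsPrimitiveRoot.of_map_of_injective (f := algebraMap (𝓞 K) (𝓞 L)) _ hinj
    rw [hzz]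
    exact hz
  refine RE3_core hBAS hBIN hCPR hCMP hANI hRAR hCP2 m c r n K L zK hzKp hn hmn hr hbd D hDF hD1 hDlt P
    ?_ e hsum hprod t₀ ht₀ ht₀lt
  intro t
  rw [hzz]
  exact hP t

end Pool.Agent.UFG
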